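import Pool.Agent.GPM.Final

/-!
# L-functions of motives cut out by finite groups: one hypersurface of multidegree (1,1,1)

A `Datum` is a projective scheme `X` over `ℤ` with an action of a finite group `G` by permutations of the
homogeneous coordinates, and an integral representation `V` of `G`; its `count` is the function
`N(q) = |G|⁻¹ ∑_g tr (g | V) #{x ∈ X : Frob_q x = g x}`.  If `X` is smooth over `ℚ`, then outside finitely many
primes `N(q)` is the alternating sum of the traces of `Frob_q` on `(H^i(X) ⊗ V)^G`, i.e. on the cohomology of
the Chow motive `(h(X) ⊗ V)^G`; all `(X, p, r)` with an idempotent `p` of `ℚ[G]` are of this kind.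

For every finite sum `f = ∑_j a_j q^(b_j) N_j` there are a finite set `h` of triples `(i, j, k)`, every `k`
in at most three of them, a number `M` and integers `κ_i` (`κ_i = 0` for odd `i`), such that for every
`i ≥ 0` the L-function of weight `i` of `f` has a meromorphic continuation, or is entire, after a
power of `ζ(s - [i/2])` is taken out, if and only if this holds for the weight `i + 2 M` part of the zeta
function of the hypersurface `∑ x_i y_j z_k = 0` (the sum over `h`) in a product of three projective spaces.
-/

set_option autoImplicit false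

namespace Pool.Agent.Results.MP_148101_nt.GroupProjectors

open Pool.Agent.HGC Pool.Agent.HGM Pool.Agent.GPM

theorem result (t : ℕ) (X : Fin t → Datum) (a : Fin t → ℤ) (b : Fin t → ℕ) :
    ∃ (h : HG) (M : ℕ) (κ : ℤ → ℤ), ZDeg 3 h.edges ∧ (∀ i, Odd i → κ i = 0) ∧
      ∀ μ ν : Nat.Primes → ℂ →₀ ℤ,
        IsSpectrum (fun p r => ∑ j, (a j : ℂ) * (((p : ℕ) : ℂ) ^ r) ^ b j * (X j).count p r) μ →
        IsSpectrum (countPF (multiCount h.edges)) ν →
        ∀ (S : Set Nat.Primes) (φ : PF) (i c : ℤ), 0 ≤ i →
          (Continues (lfun S φ μ i c) ↔
            Continues (lfun S (shift M φ) ν (i + 2 * M) (c + κ i))) ∧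
          (Entire (lfun S φ μ i c) ↔
            Entire (lfun S (shift M φ) ν (i + 2 * M) (c + κ i))) :=
  main t X a b

end Pool.Agent.Results.MP_148101_nt.GroupProjectors
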