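import Pool.Agent.Ptl.Main

/-!
# L-functions of motives cut out by finite groups: points and lines in the plane

A `TripleSystem g` is a finite set of triples (lines) of elements (points) of `{0, ..., n - 1}` such that every
point is in at most three triples and any `k` triples with `1 ≤ k ≤ g` have at least `2 k + 1` points together,
i.e. there are no cycles of length at most `g`.  Its `count` is the number of its realizations in the projective
plane over a finite field, degenerate ones included: the number of choices of a point of the plane for every
point and of a line of the plane for every triple such that the points of a triple are on its line.  These are the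
points of a closed subscheme of a product of projective planes over `ℤ`.

A `Datum` is a projective scheme `X` over `ℤ` with an action of a finite group `G` by permutations of the
homogeneous coordinates, and an integral representation `V` of `G`; its `count` is the function
`N(q) = |G|⁻¹ ∑_g tr (g | V) #{x ∈ X : Frob_q x = g x}`.

For every finite sum `f = ∑_j a_j q^(e_j) N_j(q)` every weight part of `f` is, up to powers of `q`, an explicit
integral combination of weight parts of the numbers of realizations of finitely many triple systems and of a power
of `q`; in particular its Euler product has a meromorphic continuation (with any Euler factors at a finite set `S`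
of primes) if the Euler products of the weight parts of these numbers have one.
-/

set_option autoImplicit false

open scoped BigOperators

namespace Pool.Agent.Results.MP_148101_nt.PointsAndLines

open Pool.Agent.HGC Pool.Agent.HGM Pool.Agent.GPM Pool.Agent.KGU Pool.Agent.Ptl

theorem result (g t : ℕ) (X : Fin t → Datum) (a : Fin t → ℤ) (b : Fin t → ℕ) :
    ∃ (K N : ℕ) (C : Fin N → TripleSystem g) (c : Fin N → ℤ) (d : Fin N → ℕ) (κ : ℤ → ℤ),
      (∀ i, Odd i → κ i = 0) ∧
      ∀ (μ : Nat.Primes → ℂ →₀ ℤ) (ν : Fin N → Nat.Primes → ℂ →₀ ℤ),
        IsSpectrum (fun p r => ∑ j, (a j : ℂ) * (((p : ℕ) : ℂ) ^ r) ^ b j * (X j).count p r) μ →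
        (∀ k, IsSpectrum (C k).count (ν k)) →
        (∀ w : ℤ, 0 ≤ w → ∀ (p : Nat.Primes) (r : ℕ), 1 ≤ r →
          (((p : ℕ) : ℂ) ^ r) ^ K * weightPart μ w p r =
            (κ w : ℂ) * ((((p : ℕ) : ℂ) ^ r) ^ K * (((p : ℕ) : ℂ) ^ (w / 2)) ^ r) +
            ∑ k, (c k : ℂ) * ((((p : ℕ) : ℂ) ^ r) ^ d k *
              weightPart (ν k) (w + 2 * K - 2 * d k) p r)) ∧
        ∀ (S : Set Nat.Primes) (φ : PF), S.Finite →
          Continues (fun p r => open Classical in if p ∈ S then φ p r else 0) →
          (∀ k w, Continues (lfun S (fun _ _ => 0) (ν k) w 0)) →
          ∀ i m : ℤ, 0 ≤ i → Continues (lfun S φ μ i m) :=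
  family_main (hg_ts g) t X a b

end Pool.Agent.Results.MP_148101_nt.PointsAndLines
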