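import Pool.Agent.Pf4.GFin
import Pool.Agent.Pf4.Cert

/-!
# L-functions of motives cut out by finite groups: the primitive graphs of φ⁴ theory

A `PrimPhi4` is a primitive graph of φ⁴ theory with four external legs: a finite multigraph without loops with
`n ≥ 2` vertices of degree at most `4` and `2 n - 2` edges such that any `k` vertices, `1 < k < n`, span at most
`2 k - 3` edges (so the graph is logarithmically divergent and has no subdivergences; these are the graphs which
arise from a 4-regular graph, all of whose edge cuts with less than six edges are those around a vertex, by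
removing a vertex).  Its `count` is the number of zeros over finite fields of its first Symanzik polynomial
`∑_T ∏_{e ∉ T} y_e`, the sum over the spanning trees `T`.

A `Datum` is a projective scheme `X` over `ℤ` with an action of a finite group `G` by permutations of the
homogeneous coordinates, and an integral representation `V` of `G`; its `count` is the function
`N(q) = |G|⁻¹ ∑_g tr (g | V) #{x ∈ X : Frob_q x = g x}`.

For every finite sum `f = ∑_j a_j q^(e_j) N_j` and every prime `p` every weight part of `f` at `p` is, up to
powers of `q`, an explicit integral combination of weight parts at `p` of the point counts of finitely many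
hypersurfaces of primitive graphs and of a power of `q`; in particular its Euler product has a meromorphic
continuation (with any Euler factors at a finite set `S` of primes) if the Euler products of the weight parts of
these hypersurfaces have one.
-/

set_option autoImplicit false

open scoped BigOperators

namespace Pool.Agent.Results.MP_148101_nt.PrimitivePhi4

open Pool.Agent.HGC Pool.Agent.HGM Pool.Agent.GPM Pool.Agent.KGU Pool.Agent.Pf4

theorem result (t : ℕ) (X : Fin t → Datum) (a : Fin t → ℤ) (e : Fin t → ℕ) :
    ∃ (K N : ℕ) (G : Fin N → PrimPhi4) (c : Fin N → ℤ) (d : Fin N → ℕ) (κ : ℤ → ℤ),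
      (∀ i, Odd i → κ i = 0) ∧
      ∀ (μ : Nat.Primes → ℂ →₀ ℤ) (ν : Fin N → Nat.Primes → ℂ →₀ ℤ),
        IsSpectrum (fun p r => ∑ j, (a j : ℂ) * (((p : ℕ) : ℂ) ^ r) ^ e j * (X j).count p r) μ →
        (∀ k, IsSpectrum (G k).count (ν k)) →
        (∀ w : ℤ, 0 ≤ w → ∀ p : Nat.Primes, ∀ r : ℕ, 1 ≤ r →
          (((p : ℕ) : ℂ) ^ r) ^ K * weightPart μ w p r =
            (κ w : ℂ) * ((((p : ℕ) : ℂ) ^ r) ^ K * (((p : ℕ) : ℂ) ^ (w / 2)) ^ r) +
            ∑ k, (c k : ℂ) * ((((p : ℕ) : ℂ) ^ r) ^ d k *
              weightPart (ν k) (w + 2 * K - 2 * d k) p r)) ∧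
        ∀ (S : Set Nat.Primes) (φ : PF), S.Finite →
          Continues (fun p r => open Classical in if p ∈ S then φ p r else 0) →
          (∀ k w, Continues (lfun S (fun _ _ => 0) (ν k) w 0)) →
          ∀ i m : ℤ, 0 ≤ i → Continues (lfun S φ μ i m) :=
  family4 inC_star t X a e

end Pool.Agent.Results.MP_148101_nt.PrimitivePhi4
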